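import Pool.Agent.Helper77.SD.St

/-! Module MEM1 of project SD. -/

set_option autoImplicit false

namespace Pool.Agent.Helper36.SD

open Pool.Agent.Helper77.SD
open MeasureTheory Metric Set
open scoped Gradient RealInnerProductSpace ENNReal

variable {d : ℕ}

private lemma MEM1_norm_grad (f : E d → ℝ) (x : E d) : ‖∇ f x‖ = ‖fderiv ℝ f x‖ := by
  unfold gradient
  exact (InnerProductSpace.toDual ℝ (E d)).symm.norm_map _

private lemma MEM1_meas {f : E d → E d}
    (h : ∀ R : ℝ, MemLp f 2 (volume.restrict (ball (0 : E d) R))) : AEStronglyMeasurable f volume := by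
  have hU : (⋃ n : ℕ, ball (0 : E d) (n : ℝ)) = univ := iUnion_ball_nat 0
  have := (aestronglyMeasurable_iUnion_iff (μ := (volume : Measure (E d))) (f := f)
    (s := fun n : ℕ => ball (0 : E d) (n : ℝ))).2 (fun n => (h n).1)
  rwa [hU, Measure.restrict_univ] at this

/-- the exponential weight -/
private lemma MEM1_exp (τ : ℝ) (hτ : 0 ≤ τ) (η : E d) :
    ContDiff ℝ 1 (fun x : E d => Real.exp (τ * ⟪η, x⟫)) ∧
      ∀ x, ‖fderiv ℝ (fun x : E d => Real.exp (τ * ⟪η, x⟫)) x‖ ≤ Real.exp (τ * ⟪η, x⟫) * (τ * ‖η‖) := by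
  have hl : ContDiff ℝ 1 (fun x : E d => τ * ⟪η, x⟫) :=
    contDiff_const.mul (contDiff_const.inner ℝ contDiff_id)
  refine ⟨Real.contDiff_exp.comp hl, fun x => ?_⟩
  have hi : HasFDerivAt (fun x : E d => τ * ⟪η, x⟫) (τ • (innerSL ℝ η)) x := by
    have h := ((innerSL ℝ η).hasFDerivAt (x := x)).const_mul τ
    simpa using h
  rw [hi.exp.fderiv, norm_smul, norm_smul, innerSL_apply_norm, Real.norm_eq_abs, Real.norm_eq_abs,
    abs_of_pos (Real.exp_pos _), abs_of_nonneg hτ]

theorem hMEM1 (h1 : StCAC) (h2 : StCUT) : StMEM1 := by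
  intro d l η B c lam Λ c0 c1 P δ M τ κ A V u G hm hC hδ hτ hκ hS hU
  -- constants
  have hc0 := hm.c0_pos
  have hlam := hm.lam_pos
  have hc01 : c0 ≤ c1 := (hm.lo 0).trans (hm.hi 0)
  have hc1 : 0 < c1 := lt_of_lt_of_le hc0 hc01
  have hΛ : 0 ≤ Λ := (norm_nonneg _).trans (hm.bddB 0)
  have hM : 0 ≤ M := (abs_nonneg _).trans (hC.bddV 0)
  have hcpos : ∀ x, 0 < c x := fun x => lt_of_lt_of_le hc0 (hm.lo x)
  have hcc : Continuous c := hm.smooth.continuous
  have hηc : Continuous (fun x : E d => ⟪η, x⟫) := continuous_const.inner continuous_id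
  have hwtc : Continuous (wt c τ η) := by
    unfold wt
    exact (hcc.sqrt).mul (Real.continuous_exp.comp (continuous_const.mul hηc))
  have hexp : ∀ x : E d, Real.exp (τ * ⟪η, x⟫) ≤ Real.exp ((τ + κ) * |⟪η, x⟫|) := by
    intro x
    apply Real.exp_le_exp.2
    have a1 : τ * ⟪η, x⟫ ≤ τ * |⟪η, x⟫| := mul_le_mul_of_nonneg_left (le_abs_self _) hτ
    have a2 : 0 ≤ κ * |⟪η, x⟫| := mul_nonneg hκ (abs_nonneg _)
    nlinarith
  -- measurability of `u`
  have hum : AEStronglyMeasurable u volume := by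
    have hcont : Continuous (fun x : E d => Real.exp (-((τ + κ) * |⟪η, x⟫|))) :=
      Real.continuous_exp.comp (continuous_const.mul hηc.abs).neg
    have h := hcont.aestronglyMeasurable (μ := (volume : Measure (E d))) |>.mul hU.1
    refine h.congr (Filter.Eventually.of_forall fun x => ?_)
    show Real.exp (-((τ + κ) * |⟪η, x⟫|)) * (Real.exp ((τ + κ) * |⟪η, x⟫|) * u x) = u x
    rw [← mul_assoc, ← Real.exp_add, neg_add_cancel, Real.exp_zero, one_mul]
  have hGm : AEStronglyMeasurable G volume := MEM1_meas hS.locG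
  refine ⟨?_, ?_⟩
  · -- `tf ∈ L²`
    refine l2_of_le (K := √c1) hU (hwtc.aestronglyMeasurable.mul hum) (fun x => ?_)
    show ‖wt c τ η x * u x‖ ≤ √c1 * ‖Real.exp ((τ + κ) * |⟪η, x⟫|) * u x‖
    rw [norm_mul, norm_mul, ← mul_assoc]
    refine mul_le_mul_of_nonneg_right ?_ (norm_nonneg _)
    unfold wt
    rw [Real.norm_eq_abs, Real.norm_eq_abs, abs_of_pos (Real.exp_pos _),
      abs_of_nonneg (mul_nonneg (Real.sqrt_nonneg _) (Real.exp_pos _).le)]
    exact mul_le_mul (Real.sqrt_le_sqrt (hm.hi x)) (hexp x) (Real.exp_pos _).le (Real.sqrt_nonneg _)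
  · -- ellipticity and bounds of `A`
    have ha : 0 < c0 * lam / 2 := by positivity
    have hell : ∀ x y, c0 * lam / 2 * ‖y‖ ^ 2 ≤ ⟪A x y, y⟫ := by
      intro x y
      have e1 : A x y = (A x - c x • B x) y + c x • (B x y) := by
        simp
      have e2 : ⟪A x y, y⟫ = ⟪(A x - c x • B x) y, y⟫ + c x * ⟪B x y, y⟫ := by
        rw [e1, inner_add_left, real_inner_smul_left]
      have e3 : |⟪(A x - c x • B x) y, y⟫| ≤ δ * ‖y‖ ^ 2 := by
        have b1 := abs_real_inner_le_norm ((A x - c x • B x) y) y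
        have b2 := ((A x - c x • B x).le_opNorm y).trans
          (mul_le_mul_of_nonneg_right (hC.close x) (norm_nonneg y))
        nlinarith [mul_le_mul_of_nonneg_right b2 (norm_nonneg y)]
      have e4 : c0 * (lam * ‖y‖ ^ 2) ≤ c x * ⟪B x y, y⟫ :=
        mul_le_mul (hm.lo x) (hm.ell x y) (by positivity) (hcpos x).le
      have e5 := neg_le_of_abs_le e3
      have e6 : δ * ‖y‖ ^ 2 ≤ c0 * lam / 2 * ‖y‖ ^ 2 := mul_le_mul_of_nonneg_right hδ (by positivity)
      rw [e2]
      nlinarith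
    have hbdA : ∀ x, ‖A x‖ ≤ c1 * Λ + δ := by
      intro x
      have e1 : A x = c x • B x + (A x - c x • B x) := by simp
      calc ‖A x‖ = ‖c x • B x + (A x - c x • B x)‖ := by rw [← e1]
        _ ≤ ‖c x • B x‖ + ‖A x - c x • B x‖ := norm_add_le _ _
        _ ≤ c1 * Λ + δ := by
            refine add_le_add ?_ (hC.close x)
            rw [norm_smul, Real.norm_eq_abs, abs_of_pos (hcpos x)]
            exact mul_le_mul (hm.hi x) (hm.bddB x) (norm_nonneg _) hc1.le
    obtain ⟨K, hK, hcut⟩ := h2 d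
    obtain ⟨hesm, heder⟩ := MEM1_exp (d := d) τ hτ η
    set e : E d → ℝ := fun x => Real.exp (τ * ⟪η, x⟫) with he
    have hepos : ∀ x, 0 < e x := fun x => Real.exp_pos _
    have hecont : Continuous e := hesm.continuous
    set C' : ℝ := 2 * (c1 * Λ + δ) ^ 2 / (c0 * lam / 2) * (τ * ‖η‖ + K) ^ 2 + M with hC'
    have hU2 : Integrable (fun x => C' * ‖Real.exp ((τ + κ) * |⟪η, x⟫|) * u x‖ ^ 2) :=
      (integrable_sq hU).const_mul _
    set I : ℝ := ∫ x, C' * ‖Real.exp ((τ + κ) * |⟪η, x⟫|) * u x‖ ^ 2 with hI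
    -- the main estimate
    have hmain : ∀ n : ℕ, 1 ≤ n → IntegrableOn (fun x => e x ^ 2 * ‖G x‖ ^ 2) (ball (0 : E d) (n : ℝ)) ∧
        ∫ x in ball (0 : E d) (n : ℝ), ‖e x ^ 2 * ‖G x‖ ^ 2‖ ≤ I / (c0 * lam / 2 / 2) := by
      intro n hn
      have hn1 : (1 : ℝ) ≤ n := by exact_mod_cast hn
      obtain ⟨ζ, hζs, hζc, hζ01, hζ1, hζ0, hζd⟩ := hcut n hn1
      have hζs1 : ContDiff ℝ 1 ζ := hζs.of_le (by exact_mod_cast le_top)
      -- local integrability
      have hloc : ∀ (χ : E d → ℝ) (R : ℝ), Continuous χ →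
          IntegrableOn (fun x => χ x ^ 2 * ‖G x‖ ^ 2) (ball (0 : E d) R) := by
        intro χ R hχ
        obtain ⟨b, hb⟩ := (isCompact_closedBall (0 : E d) R).exists_bound_of_continuousOn
          (hχ.pow 2).continuousOn
        have hG2 : Integrable (fun x => ‖G x‖ ^ 2) (volume.restrict (ball (0 : E d) R)) :=
          (memLp_two_iff_integrable_sq_norm (hS.locG R).1).1 (hS.locG R)
        refine Integrable.mono' (hG2.const_mul b) ?_ ?_
        · exact ((hχ.pow 2).aestronglyMeasurable).mul hG2.1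
        · filter_upwards [ae_restrict_mem measurableSet_ball] with x hx
          rw [norm_mul]
          have h3 := hb x (ball_subset_closedBall hx)
          have h4 : ‖(‖G x‖ ^ 2 : ℝ)‖ = ‖G x‖ ^ 2 := by
            rw [Real.norm_eq_abs, abs_of_nonneg (by positivity)]
          rw [h4]
          exact mul_le_mul_of_nonneg_right h3 (by positivity)
      refine ⟨hloc e n hecont, ?_⟩
      set χ : E d → ℝ := fun x => ζ x * e x with hχ
      have hχs : ContDiff ℝ 1 χ := hζs1.mul hesm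
      have hχc : HasCompactSupport χ := hζc.mul_right
      have hcac := h1 d A V u G (c0 * lam / 2) (c1 * Λ + δ) M ha hC.measA hC.measV hell hbdA hC.bddV hS
        χ hχs hχc
      -- gradient of `χ`
      have hgr : ∀ x, ‖∇ χ x‖ ≤ (τ * ‖η‖ + K) * e x := by
        intro x
        rw [MEM1_norm_grad]
        have hd1 : DifferentiableAt ℝ ζ x := (hζs1.differentiable (by norm_num)) x
        have hd2 : DifferentiableAt ℝ e x := (hesm.differentiable (by norm_num)) x
        have hf : fderiv ℝ χ x = ζ x • fderiv ℝ e x + e x • fderiv ℝ ζ x := by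
          rw [hχ]
          exact fderiv_fun_mul hd1 hd2
        rw [hf]
        have hK2 : K / n ≤ K := div_le_self hK.le hn1
        have hz : ‖fderiv ℝ ζ x‖ ≤ K := by
          rw [← MEM1_norm_grad]
          exact (hζd x).trans hK2
        calc ‖ζ x • fderiv ℝ e x + e x • fderiv ℝ ζ x‖
            ≤ ‖ζ x • fderiv ℝ e x‖ + ‖e x • fderiv ℝ ζ x‖ := norm_add_le _ _
          _ = |ζ x| * ‖fderiv ℝ e x‖ + |e x| * ‖fderiv ℝ ζ x‖ := by
              rw [norm_smul, norm_smul, Real.norm_eq_abs, Real.norm_eq_abs]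
          _ ≤ 1 * (e x * (τ * ‖η‖)) + e x * K := by
              refine add_le_add ?_ ?_
              · refine mul_le_mul ?_ (heder x) (norm_nonneg _) zero_le_one
                rw [abs_of_nonneg (hζ01 x).1]
                exact (hζ01 x).2
              · rw [abs_of_pos (hepos x)]
                exact mul_le_mul_of_nonneg_left hz (hepos x).le
          _ = (τ * ‖η‖ + K) * e x := by ring
      -- right side
      have hrhs : ∫ x, (2 * (c1 * Λ + δ) ^ 2 / (c0 * lam / 2) * ‖∇ χ x‖ ^ 2 + M * χ x ^ 2) * u x ^ 2 ≤ I := by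
        refine integral_mono_of_nonneg (Filter.Eventually.of_forall fun x => ?_) hU2
          (Filter.Eventually.of_forall fun x => ?_)
        · show (0 : ℝ) ≤ (2 * (c1 * Λ + δ) ^ 2 / (c0 * lam / 2) * ‖∇ χ x‖ ^ 2 + M * χ x ^ 2) * u x ^ 2
          positivity
        · show (2 * (c1 * Λ + δ) ^ 2 / (c0 * lam / 2) * ‖∇ χ x‖ ^ 2 + M * χ x ^ 2) * u x ^ 2 ≤
            C' * ‖Real.exp ((τ + κ) * |⟪η, x⟫|) * u x‖ ^ 2
          have g1 : ‖∇ χ x‖ ^ 2 ≤ (τ * ‖η‖ + K) ^ 2 * e x ^ 2 := by
            rw [← mul_pow]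
            exact pow_le_pow_left₀ (norm_nonneg _) (hgr x) 2
          have g2 : χ x ^ 2 ≤ e x ^ 2 := by
            have : χ x ^ 2 = ζ x ^ 2 * e x ^ 2 := by rw [hχ]; ring
            rw [this]
            have h5 : ζ x ^ 2 ≤ 1 := pow_le_one₀ (hζ01 x).1 (hζ01 x).2
            nlinarith [sq_nonneg (e x)]
          have g3 : e x ^ 2 ≤ Real.exp ((τ + κ) * |⟪η, x⟫|) ^ 2 :=
            pow_le_pow_left₀ (hepos x).le (hexp x) 2
          have g4 : 0 ≤ 2 * (c1 * Λ + δ) ^ 2 / (c0 * lam / 2) := by positivity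
          have g5 : 2 * (c1 * Λ + δ) ^ 2 / (c0 * lam / 2) * ‖∇ χ x‖ ^ 2 + M * χ x ^ 2 ≤ C' * e x ^ 2 := by
            have h6 := mul_le_mul_of_nonneg_left g1 g4
            have h7 := mul_le_mul_of_nonneg_left g2 hM
            rw [hC']
            nlinarith
          have g6 : 0 ≤ C' := by rw [hC']; positivity
          have g7 : ‖Real.exp ((τ + κ) * |⟪η, x⟫|) * u x‖ ^ 2 =
              Real.exp ((τ + κ) * |⟪η, x⟫|) ^ 2 * u x ^ 2 := by
            rw [Real.norm_eq_abs, sq_abs, mul_pow]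
          rw [g7, ← mul_assoc]
          exact mul_le_mul_of_nonneg_right (g5.trans (mul_le_mul_of_nonneg_left g3 g6)) (sq_nonneg _)
      -- left side
      have hsupp : ∀ x, x ∉ ball (0 : E d) (2 * n) → χ x ^ 2 * ‖G x‖ ^ 2 = 0 := by
        intro x hx
        have : 2 * (n : ℝ) ≤ ‖x‖ := by
          by_contra hlt
          exact hx (by simpa using not_le.1 hlt)
        have h8 : χ x = 0 := by
          rw [hχ]
          show ζ x * e x = 0
          rw [hζ0 x this, zero_mul]
        rw [h8]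
        ring
      have hint : Integrable (fun x => χ x ^ 2 * ‖G x‖ ^ 2) := by
        have h9 := hloc χ (2 * n) hχs.continuous
        rw [← integrable_indicator_iff measurableSet_ball] at h9
        refine h9.congr (Filter.Eventually.of_forall fun x => ?_)
        by_cases hx : x ∈ ball (0 : E d) (2 * n)
        · rw [indicator_of_mem hx]
        · rw [indicator_of_notMem hx]
          exact (hsupp x hx).symm
      have hle : ∫ x in ball (0 : E d) (n : ℝ), ‖e x ^ 2 * ‖G x‖ ^ 2‖ ≤ ∫ x, χ x ^ 2 * ‖G x‖ ^ 2 := by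
        have h10 : ∫ x in ball (0 : E d) (n : ℝ), ‖e x ^ 2 * ‖G x‖ ^ 2‖ =
            ∫ x in ball (0 : E d) (n : ℝ), χ x ^ 2 * ‖G x‖ ^ 2 := by
          refine setIntegral_congr_fun measurableSet_ball (fun x hx => ?_)
          have h11 : ζ x = 1 := hζ1 x (le_of_lt (by simpa using hx))
          show ‖e x ^ 2 * ‖G x‖ ^ 2‖ = (ζ x * e x) ^ 2 * ‖G x‖ ^ 2
          rw [h11, one_mul, Real.norm_eq_abs, abs_of_nonneg (by positivity)]
        rw [h10]
        exact setIntegral_le_integral hint (Filter.Eventually.of_forall fun x => by positivity)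
      have ha2 : 0 < c0 * lam / 2 / 2 := by positivity
      rw [le_div_iff₀ ha2, mul_comm]
      exact (mul_le_mul_of_nonneg_left hle ha2.le).trans (hcac.trans hrhs)
    -- conclusion
    have hcov : AECover (volume : Measure (E d)) Filter.atTop (fun n : ℕ => ball (0 : E d) (n : ℝ)) :=
      aecover_ball tendsto_natCast_atTop_atTop
    have hfin : Integrable (fun x => e x ^ 2 * ‖G x‖ ^ 2) := by
      refine hcov.integrable_of_integral_norm_bounded (I / (c0 * lam / 2 / 2)) (fun n => ?_) ?_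
      · rcases Nat.eq_zero_or_pos n with h0 | h0
        · subst h0
          simp
        · exact (hmain n h0).1
      · filter_upwards [Filter.eventually_ge_atTop 1] with n hn
        exact (hmain n hn).2
    refine l2_of_sq (hwtc.aestronglyMeasurable.smul hGm) ?_
    refine Integrable.mono' (hfin.const_mul c1) ?_ (Filter.Eventually.of_forall fun x => ?_)
    · exact ((hwtc.aestronglyMeasurable.smul hGm).norm.pow 2)
    · show ‖‖wt c τ η x • G x‖ ^ 2‖ ≤ c1 * (e x ^ 2 * ‖G x‖ ^ 2)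
      have h12 : ‖wt c τ η x • G x‖ ^ 2 = c x * (e x ^ 2 * ‖G x‖ ^ 2) := by
        rw [norm_smul, mul_pow, Real.norm_eq_abs, sq_abs]
        unfold wt
        rw [mul_pow, Real.sq_sqrt (hcpos x).le, he]
        ring
      rw [Real.norm_eq_abs, abs_of_nonneg (by positivity), h12]
      exact mul_le_mul_of_nonneg_right (hm.hi x) (by positivity)

end Pool.Agent.Helper36.SD
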